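import Pool.Agent.H6.NE.Stm2

/-!
# NE: parts NEX, CST, STA, CHN
-/

set_option autoImplicit false

open Finset

namespace H96.NE

open H6.NE

section basics

variable {p N : ℕ} {G V : Type} [Group G] [AddCommGroup V] [Module (ZMod (p ^ N)) V]

theorem finite_end [Finite V] : Finite (Module.End (ZMod (p ^ N)) V) :=
  Finite.of_injective (fun f : Module.End (ZMod (p ^ N)) V => (f : V → V)) DFunLike.coe_injective

theorem finite_LG [Finite V] (ρ : Representation (ZMod (p ^ N)) G V) (K : Subgroup G) :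
    Finite (LG ρ K) := by
  have : Finite (Module.End (ZMod (p ^ N)) V) := finite_end
  exact Finite.of_injective (fun y : LG ρ K => (y : Module.End (ZMod (p ^ N)) V))
    Subtype.val_injective

theorem finite_quot [Finite V] (F : Submodule (ZMod (p ^ N)) V) : Finite (V ⧸ F) :=
  Finite.of_surjective F.mkQ (Submodule.mkQ_surjective F)

/-- stabilisers do not change under multiplication by units -/
theorem SG_smul (ρ : Representation (ZMod (p ^ N)) G V) (K : Subgroup G) (a : ZMod (p ^ N))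
    (ha : IsUnit a) (v : V) : SG ρ K (a • v) = SG ρ K v := by
  ext y
  unfold SG
  rw [mem_Sv, mem_Sv, map_smul]
  constructor
  · intro h
    obtain ⟨u, rfl⟩ := ha
    have h1 : ((u⁻¹ : (ZMod (p ^ N))ˣ) : ZMod (p ^ N)) • ((u : ZMod (p ^ N)) • bl ρ K y v) = 0 := by
      rw [h, smul_zero]
    rwa [smul_smul, Units.inv_mul, one_smul] at h1
  · intro h
    rw [h, smul_zero]

theorem Mxx_smul (ρ : Representation (ZMod (p ^ N)) G V) (K : Subgroup G) (a : ZMod (p ^ N))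
    (ha : IsUnit a) (v : V) (h : Mxx ρ K v) : Mxx ρ K (a • v) := by
  intro w
  rw [SG_smul ρ K a ha v]
  exact h w

/-- there are maximal elements -/
theorem exists_Mxx (ρ : Representation (ZMod (p ^ N)) G V) (K : Subgroup G) : ∃ v, Mxx ρ K v := by
  classical
  have hex : ∃ n, ∃ v, ln p (SG ρ K v) = n := ⟨_, 0, rfl⟩
  obtain ⟨v, hv⟩ := Nat.find_spec hex
  refine ⟨v, fun w => ?_⟩
  rw [hv]
  exact Nat.find_min' hex ⟨w, rfl⟩

end basics

theorem t_STA : S_STA := by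
  intro p N _ G V _ _ _ _ _ ρ e hF
  have hsub : Subsingleton (V ⧸ (⊤ : Submodule (ZMod (p ^ N)) V)) :=
    ⟨fun a b => by
      obtain ⟨a, rfl⟩ := Submodule.mkQ_surjective _ a
      obtain ⟨b, rfl⟩ := Submodule.mkQ_surjective _ b
      rw [← sub_eq_zero, ← map_sub, Submodule.mkQ_apply, Submodule.Quotient.mk_eq_zero]
      exact Submodule.mem_top⟩
  have hE : Subsingleton (Module.End (ZMod (p ^ N)) (V ⧸ (⊤ : Submodule (ZMod (p ^ N)) V))) :=
    ⟨fun f g => LinearMap.ext fun v => Subsingleton.elim _ _⟩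
  have hL : Subsingleton (LG (qr ρ ⊤ hF) ⊤) := by
    refine ⟨fun f g => Subtype.ext (Subsingleton.elim _ _)⟩
  have h0 : ln p (LG (qr ρ ⊤ hF) ⊤) = 0 := by
    unfold ln
    rw [Nat.card_of_subsingleton (0 : LG (qr ρ ⊤ hF) ⊤)]
    simp
  have h1 : ∀ v, ln p (SG (qr ρ ⊤ hF) ⊤ v) = 0 := by
    intro v
    unfold ln
    have : Subsingleton (SG (qr ρ ⊤ hF) ⊤ v) := ⟨fun f g => Subtype.ext (Subsingleton.elim _ _)⟩
    rw [Nat.card_of_subsingleton (0 : SG (qr ρ ⊤ hF) ⊤ v)]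
    simp
  refine ⟨inferInstance, le_top, Set.univ_nonempty, fun _ _ _ _ => Set.mem_univ _, ?_,
    fun _ _ _ _ => Subgroup.mem_top _, ?_, ?_⟩
  · intro u _ w
    rw [h1, h1]
  · intro u _ x T _ _ hT
    have : T = ∅ := by
      rw [Finset.eq_empty_iff_forall_notMem]
      intro s hs
      exact hT s hs (Set.mem_univ _)
    rw [this, h1]
    simp
  · intro u _
    rw [h1, h0, Subgroup.index_top]
    simp

theorem t_NEX (hPL : S_PL) (hCNT : S_CNT) (hAM : S_AM) (hBND : S_BND) : S_NEX := by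
  intro p N _ hN G V _ _ _ _ _ ρ e h2e h2 hG hO K F hF Gd r hI K' F' hF' hJ'
  have hB := hBND p N hN h2 G V ρ e hG hO K F hF hI.hJ
  have hB' := hBND p N hN h2 G V ρ e hG hO K' F' hF' hJ'
  have hfq := finite_quot (p := p) (N := N) F'
  have hfl := finite_LG (qr ρ F' hF') K'
  obtain ⟨u1, hu1⟩ := hI.ne
  obtain ⟨w2, hw2⟩ := exists_Mxx (qr ρ F' hF') K'
  obtain ⟨u2, rfl⟩ := Submodule.mkQ_surjective F' w2
  have hr := (hB.2 Gd r hI).1
  obtain ⟨x, hx1, hx2⟩ := hPL p N hN V (fun v => v ∈ Gd)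
    (fun v => Mxx (qr ρ F' hF') K' (F'.mkQ v)) (fun a ha v hv => hI.sc a ha v hv)
    (fun a ha v hv => by
      have := Mxx_smul (qr ρ F' hF') K' a ha (F'.mkQ v) hv
      rwa [← map_smul] at this) u1 u2 r e hu1 hw2
    (fun x T hT hb => hCNT p N hN h2 G V ρ e hG hO K F hF Gd r hI u1 hu1 x T hT hb)
    (fun x T hT hb => by
      have key := hAM p N (LG (qr ρ F' hF') K') (V ⧸ F') (V ⧸ F') (bl (qr ρ F' hF') K') ⊥
        (F'.mkQ x) (F'.mkQ u2) T ∅ (Finset.disjoint_empty_right _)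
        (by
          intro s hs t ht hst
          rw [Finset.union_empty] at hs ht
          exact hT s hs t ht hst) (Or.inl rfl)
        (by
          intro s hs
          have h3 := hb s hs
          have h4 : F'.mkQ (x + s • u2) = F'.mkQ x + s • F'.mkQ u2 := by
            rw [map_add, map_smul]
          rw [h4] at h3
          by_contra hcon
          apply h3
          intro w
          have h5 := hw2 w
          have h6 : ln p (SG (qr ρ F' hF') K' (F'.mkQ x + s • F'.mkQ u2)) ≤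
              ln p (SG (qr ρ F' hF') K' (F'.mkQ u2)) := by
            unfold SG
            omega
          exact h6.trans h5)
        (by
          intro s hs
          exact absurd hs (Finset.notMem_empty s))
      have h7 := hB'.1 u2
      unfold SG at h7
      rw [Finset.card_empty] at key
      omega) (by omega)
  exact ⟨x, hx1, hx2⟩

theorem JV_qr_bot (hNIL : S_NIL) (p N : ℕ) [Fact p.Prime] (G V : Type) [Group G]
    [AddCommGroup V] [Module (ZMod (p ^ N)) V] (ρ : Representation (ZMod (p ^ N)) G V)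
    (K : Subgroup G) (F : Submodule (ZMod (p ^ N)) V) (hF : ∀ g, F ≤ F.comap (ρ g))
    (hJ : JV ρ K (p - 1) ≤ F) : JV (qr ρ F hF) K (p - 1) = ⊥ := by
  rw [(hNIL p N G V ρ).2.2.1 F hF K (p - 1), eq_bot_iff]
  rintro _ ⟨x, hx, rfl⟩
  rw [Submodule.mem_bot, Submodule.mkQ_apply, Submodule.Quotient.mk_eq_zero]
  exact hJ hx

theorem t_CST (hNRM : S_NRM) (hNEX : S_NEX) (hSTEP : S_STEP) (hNIL : S_NIL) : S_CST := by
  intro p N _ hN G V _ _ _ _ _ ρ e h2e h2 hG hO K F hF Gd r hI F' hF' hFF hJ'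
  have hfq := finite_quot (p := p) (N := N) F
  have hbot := JV_qr_bot hNIL p N G V ρ K F hF hI.hJ
  obtain ⟨n1, n2, n3, n4, -⟩ := hNRM p N hN h2 G (V ⧸ F) (qr ρ F hF) K hI.nor hbot
  obtain ⟨r', hr1, hr2⟩ := hSTEP p N hN G V ρ e h2e h2 hG hO K F hF Gd r hI F' hF' hFF hJ'
  refine ⟨{u | u ∈ Gd ∧ Mxx (qr ρ F' hF') (Kn (qr ρ F hF) K) (F'.mkQ u)}, r',
    ⟨n1, hJ', ?_, ?_, ?_, ?_, ?_, ?_⟩⟩
  · obtain ⟨u, hu1, hu2⟩ := hNEX p N hN G V ρ e h2e h2 hG hO K F hF Gd r hI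
      (Kn (qr ρ F hF) K) F' hF' hJ'
    exact ⟨u, hu1, hu2⟩
  · rintro a ha v ⟨hv1, hv2⟩
    refine ⟨hI.sc a ha v hv1, ?_⟩
    have := Mxx_smul (qr ρ F' hF') (Kn (qr ρ F hF) K) a ha (F'.mkQ v) hv2
    rwa [← map_smul] at this
  · rintro u ⟨-, hu⟩
    exact hu
  · rintro u ⟨hu1, -⟩ g hg
    refine n4 (F.mkQ u) (hI.mx u hu1) g (hI.st u hu1 g hg) ?_
    rw [qr_mk, hg]
  · rintro u ⟨hu1, hu2⟩ x T hT hc hb
    exact hr2 u hu1 hu2 x T hT hc hb
  · rintro u ⟨hu1, hu2⟩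
    exact hr1 u hu1 hu2

theorem t_CHN (hSTA : S_STA) (hCST : S_CST) (hNIL : S_NIL) (hNRM : S_NRM) : S_CHN := by
  intro p N _ hN G V _ _ _ _ _ ρ e h2e h2 hG hO
  -- the next stage
  have next : ∀ (K : Subgroup G) (F : Submodule (ZMod (p ^ N)) V)
      (hF : ∀ g, F ≤ F.comap (ρ g)) (Gd : Set V) (r : ℕ), Inv ρ e K F hF Gd r →
      JV ρ (Kn (qr ρ F hF) K) (p - 1) ≤ F →
      Kn (qr ρ F hF) K ≤ K ∧
      ∃ (hF' : ∀ g, JV ρ (Kn (qr ρ F hF) K) (p - 1) ≤
          (JV ρ (Kn (qr ρ F hF) K) (p - 1)).comap (ρ g)) (Gd' : Set V) (r' : ℕ),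
        Inv ρ e (Kn (qr ρ F hF) K) (JV ρ (Kn (qr ρ F hF) K) (p - 1)) hF' Gd' r' := by
    intro K F hF Gd r hI hle
    have hfq := finite_quot (p := p) (N := N) F
    have hbot := JV_qr_bot hNIL p N G V ρ K F hF hI.hJ
    obtain ⟨n1, n2, -, -, -⟩ := hNRM p N hN h2 G (V ⧸ F) (qr ρ F hF) K hI.nor hbot
    have hF' := (hNIL p N G V ρ).2.2.2.1 (Kn (qr ρ F hF) K) (p - 1) n1
    obtain ⟨Gd', r', hI'⟩ := hCST p N hN G V ρ e h2e h2 hG hO K F hF Gd r hI _ hF' hle le_rfl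
    exact ⟨n2, hF', Gd', r', hI'⟩
  have main : ∀ (n : ℕ) (K : Subgroup G) (hF : ∀ g, JV ρ K (p - 1) ≤ (JV ρ K (p - 1)).comap (ρ g))
      (Gd : Set V) (r : ℕ), Nat.card K ≤ n → Inv ρ e K (JV ρ K (p - 1)) hF Gd r →
      ∃ (K : Subgroup G) (F : Submodule (ZMod (p ^ N)) V) (hF : ∀ g, F ≤ F.comap (ρ g)) (Gd : Set V)
        (r : ℕ), Inv ρ e K F hF Gd r ∧ F = JV ρ K (p - 1) ∧ Kn (qr ρ F hF) K = K := by
    intro n
    induction n with
    | zero =>
      intro K hF Gd r hn hI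
      have : 0 < Nat.card K := Nat.card_pos
      omega
    | succ n ih =>
      intro K hF Gd r hn hI
      by_cases hK : Kn (qr ρ (JV ρ K (p - 1)) hF) K = K
      · exact ⟨K, _, hF, Gd, r, hI, rfl, hK⟩
      · have hfq := finite_quot (p := p) (N := N) (JV ρ K (p - 1))
        have hbot := JV_qr_bot hNIL p N G V ρ K (JV ρ K (p - 1)) hF hI.hJ
        obtain ⟨n1, n2, -, -, -⟩ := hNRM p N hN h2 G (V ⧸ JV ρ K (p - 1))
          (qr ρ (JV ρ K (p - 1)) hF) K hI.nor hbot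
        obtain ⟨-, hF', Gd', r', hI'⟩ := next K _ hF Gd r hI
          ((hNIL p N G V ρ).2.1 K _ (p - 1) n2)
        refine ih _ hF' Gd' r' ?_ hI'
        have hlt : Kn (qr ρ (JV ρ K (p - 1)) hF) K < K := lt_of_le_of_ne n2 hK
        have : Nat.card (Kn (qr ρ (JV ρ K (p - 1)) hF) K) < Nat.card K := by
          have h1 : ((Kn (qr ρ (JV ρ K (p - 1)) hF) K : Subgroup G) : Set G) ⊂ (K : Set G) := hlt
          have h2 := Set.ncard_lt_ncard h1 (Set.toFinite _)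
          rwa [← Nat.card_coe_set_eq, ← Nat.card_coe_set_eq] at h2
        omega
  have hF0 : ∀ g, (⊤ : Submodule (ZMod (p ^ N)) V) ≤
      (⊤ : Submodule (ZMod (p ^ N)) V).comap (ρ g) := fun g => by
    rw [Submodule.comap_top]
  obtain ⟨-, hF', Gd', r', hI'⟩ := next ⊤ ⊤ hF0 Set.univ 0 (hSTA p N G V ρ e hF0) le_top
  exact main _ _ hF' Gd' r' le_rfl hI'

end H96.NE
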